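import Pool.Agent.Helper77.UN.Defs
import Pool.Agent.Helper77.CR.BASE

/-!
# UN-MEM: the elements of `pots`
-/

namespace Pool.Agent.Helper77.UN

open Finset
open Pool.Agent.Helper9.Kashaev (Piece Diagram)
open Pool.Agent.Helper9.FA (Item Cor Ang twists wfP labels)
open Pool.Agent.Helper9.TW (Lab Conn)
open Pool.Agent.Helper28.TX (PV Pot)
open Pool.Agent.Helper77.ST
open Pool.Agent.Helper77.CR (Uni All ids cor mE EU ncup ncap bz Red)

private lemma mem_inR_app {l : ℕ} {x : ℤ} {r : List ℤ} : ∀ s1 : List ℤ,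
    InR l (s1 ++ x :: r) ↔ InR l (s1 ++ [x]) ∧ InR l (x :: r)
  | [] => by
    constructor
    · intro h; exact ⟨trivial, h⟩
    · intro h; exact h.2
  | [y] => by
    show (|x - y| ≤ l ∧ InR l (x :: r)) ↔ (|x - y| ≤ l ∧ True) ∧ InR l (x :: r)
    tauto
  | y :: z :: s1 => by
    have ih := mem_inR_app (l := l) (x := x) (r := r) (z :: s1)
    show (|z - y| ≤ l ∧ InR l (z :: s1 ++ x :: r)) ↔
      (|z - y| ≤ l ∧ InR l (z :: s1 ++ [x])) ∧ InR l (x :: r)
    rw [ih]
    tauto

private lemma mem_inR_cons {l : ℕ} {x y : ℤ} {r : List ℤ} :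
    InR l (x :: y :: r) ↔ |y - x| ≤ l ∧ InR l (y :: r) := Iff.rfl

private lemma mem_split {s : List ℤ} {k : ℕ} {t : List ℤ} (h : s.drop k = t) (ht : t ≠ []) :
    s = s.take k ++ t ∧ (s.take k).length = k := by
  constructor
  · rw [← h, List.take_append_drop]
  · rw [List.length_take]
    have : k < s.length := by
      by_contra hcon
      exact ht (by rw [← h, List.drop_eq_nil_of_le (not_lt.1 hcon)])
    omega

theorem pots_pot {l : ℕ} {Q : List (Item Unit)} {s : List ℤ} (hr : InR l s)
    {y : List (PV ℤ) × List (Bool × ℤ × ℤ)} (hy : y ∈ pots l Q s) :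
    (∃ k : ℤ, Pot k (k + (l : ℤ)) Q s y.1 y.2) ∧ (∀ q ∈ y.1, VR l q) ∧ ∀ z ∈ y.2, |z.2.2 - z.2.1| ≤ l := by
  classical
  induction Q generalizing s y with
  | nil =>
    unfold pots at hy
    split at hy
    · rename_i x x'
      split_ifs at hy with hx
      · rw [Finset.mem_singleton] at hy
        subst hy
        refine ⟨⟨x, ?_⟩, by simp, by simp⟩
        rw [hx]
        exact Pot.nil
      · simp at hy
    · simp at hy
  | cons it P ih =>
    cases it with
    | cup k =>
      unfold pots at hy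
      split at hy
      · rename_i x r hd
        obtain ⟨h1, h2⟩ := mem_split hd (by simp)
        obtain ⟨m, hm, hy⟩ := Finset.mem_biUnion.1 hy
        obtain ⟨y', hy', rfl⟩ := Finset.mem_image.1 hy
        rw [Finset.mem_Icc] at hm
        have hmx : |m - x| ≤ l := by rw [abs_le]; constructor <;> linarith
        have hmx' : |x - m| ≤ l := by rw [abs_sub_comm]; exact hmx
        rw [h1] at hr
        obtain ⟨h3, h4⟩ := (mem_inR_app _).1 hr
        have hr' : InR l (s.take k ++ x :: m :: x :: r) :=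
          (mem_inR_app _).2 ⟨h3, hmx, hmx', h4⟩
        obtain ⟨⟨k0, hk0⟩, h5, h6⟩ := ih hr' hy'
        refine ⟨⟨k0, ?_⟩, h5, ?_⟩
        · have := Pot.cup hk0
          rw [h2] at this
          rw [h1]
          simpa [h2] using this
        · intro z hz
          rcases List.mem_cons.1 hz with rfl | hz
          · exact hmx
          · exact h6 z hz
      · simp at hy
    | cap k =>
      unfold pots at hy
      split at hy
      · rename_i x m x' r hd
        split_ifs at hy with hx
        · subst hx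
          obtain ⟨h1, h2⟩ := mem_split hd (by simp)
          obtain ⟨y', hy', rfl⟩ := Finset.mem_image.1 hy
          rw [h1] at hr
          obtain ⟨h3, h4, h4', h4''⟩ := (mem_inR_app _).1 hr
          have hr' : InR l (s.take k ++ x :: r) := (mem_inR_app _).2 ⟨h3, h4''⟩
          obtain ⟨⟨k0, hk0⟩, h5, h6⟩ := ih hr' hy'
          refine ⟨⟨k0, ?_⟩, h5, ?_⟩
          · have := Pot.cap (m := m) hk0
            rw [h2] at this
            rw [h1]
            simpa [h2] using this
          · intro z hz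
            rcases List.mem_cons.1 hz with rfl | hz
            · exact h4
            · exact h6 z hz
        · simp at hy
      · simp at hy
    | box k a =>
      unfold pots at hy
      split at hy
      · rename_i L B R r hd
        obtain ⟨h1, h2⟩ := mem_split hd (by simp)
        obtain ⟨T, hT, hy⟩ := Finset.mem_biUnion.1 hy
        obtain ⟨y', hy', rfl⟩ := Finset.mem_image.1 hy
        rw [Finset.mem_filter, Finset.mem_Icc] at hT
        obtain ⟨⟨hT1, hT2⟩, hT3⟩ := hT
        have hT4 : |T - L| ≤ l := by rw [abs_le]; constructor <;> linarith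
        rw [h1] at hr
        obtain ⟨h3, h4, h4', h4''⟩ := (mem_inR_app _).1 hr
        have hr' : InR l (s.take k ++ L :: T :: R :: r) :=
          (mem_inR_app _).2 ⟨h3, hT4, hT3, h4''⟩
        obtain ⟨⟨k0, hk0⟩, h5, h6⟩ := ih hr' hy'
        refine ⟨⟨k0, ?_⟩, ?_, h6⟩
        · have := Pot.box (x := a) (q := (⟨L, B, R, T⟩ : PV ℤ)) hk0
          rw [h2] at this
          rw [h1]
          simpa [h2] using this
        · intro q hq
          rcases List.mem_cons.1 hq with rfl | hq
          · exact ⟨h4, h4', hT4, hT3⟩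
          · exact h5 q hq
      · simp at hy

/-- the label of a strand -/
private noncomputable def lb (l : ℕ) (x y : ℤ) : ℝ := if |y - x| ≤ l then 0 else 1

private noncomputable def lbs (l : ℕ) : List ℤ → List ℝ
  | x :: y :: r => lb l x y :: lbs l (y :: r)
  | _ => []

private lemma lb_comm (l : ℕ) (x y : ℤ) : lb l x y = lb l y x := by
  unfold lb
  rw [abs_sub_comm]

private lemma lbs_app {l : ℕ} {x : ℤ} {r : List ℤ} : ∀ s1 : List ℤ,
    lbs l (s1 ++ x :: r) = lbs l (s1 ++ [x]) ++ lbs l (x :: r)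
  | [] => rfl
  | [y] => rfl
  | y :: z :: s1 => by
    have ih := lbs_app (l := l) (x := x) (r := r) (z :: s1)
    show lb l y z :: lbs l (z :: s1 ++ x :: r) =
      (lb l y z :: lbs l (z :: s1 ++ [x])) ++ lbs l (x :: r)
    rw [ih]
    rfl

private lemma lbs_len {l : ℕ} {x : ℤ} : ∀ s1 : List ℤ, (lbs l (s1 ++ [x])).length = s1.length
  | [] => rfl
  | [y] => rfl
  | y :: z :: s1 => by
    have ih := lbs_len (l := l) (x := x) (z :: s1)
    show (lbs l (z :: s1 ++ [x])).length + 1 = (z :: s1).length + 1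
    rw [ih]

/-- the labels at the maxima -/
private noncomputable def cl (l : ℕ) : List (Bool × ℤ × ℤ) → List ℝ
  | [] => []
  | (true, _, _) :: e => cl l e
  | (false, x, y) :: e => lb l x y :: cl l e

private lemma mem_cl {l : ℕ} {z : Bool × ℤ × ℤ} : ∀ {e : List (Bool × ℤ × ℤ)}, z ∈ e →
    z.1 = false → lb l z.2.1 z.2.2 ∈ cl l e
  | (b, x, y) :: e, hz, hz1 => by
    rcases List.mem_cons.1 hz with rfl | hz
    · have : b = false := hz1
      subst this
      exact List.mem_cons_self
    · have ih := mem_cl (l := l) hz hz1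
      cases b with
      | false => exact List.mem_cons_of_mem _ ih
      | true => exact ih

private lemma pot_lab {l : ℕ} {k0 k1 : ℤ} {S : List (Item Unit)} {s : List ℤ} {θ : List (PV ℤ)}
    {e : List (Bool × ℤ × ℤ)} (h : Pot k0 k1 S s θ e) (hk : |k1 - k0| ≤ l)
    (hv : ∀ q ∈ θ, VR l q) : Lab S (cl l e) (lbs l s) := by
  induction h with
  | nil =>
    have : lbs l [k0, k1] = [0] := by
      show [lb l k0 k1] = [0]
      unfold lb
      rw [if_pos hk]
    rw [this]
    exact Lab.nil
  | @cup P l' r a m θ e h ih =>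
    have ih := ih hv
    rw [lbs_app] at ih ⊢
    have h1 : lbs l (a :: m :: a :: r) = lb l a m :: lb l a m :: lbs l (a :: r) := by
      show lb l a m :: lb l m a :: lbs l (a :: r) = _
      rw [lb_comm l m a]
    rw [h1] at ih
    have := Lab.cup ih
    rw [lbs_len] at this
    exact this
  | @cap P l' r a m θ e h ih =>
    have ih := ih hv
    rw [lbs_app] at ih ⊢
    have h1 : lbs l (a :: m :: a :: r) = lb l a m :: lb l a m :: lbs l (a :: r) := by
      show lb l a m :: lb l m a :: lbs l (a :: r) = _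
      rw [lb_comm l m a]
    rw [h1]
    have := Lab.cap (s := lb l a m) ih
    rw [lbs_len] at this
    exact this
  | @box P l' r x q θ e h ih =>
    have ih := ih fun q' hq' => hv q' (List.mem_cons_of_mem _ hq')
    obtain ⟨v1, v2, v3, v4⟩ := hv q List.mem_cons_self
    rw [lbs_app] at ih ⊢
    have h1 : lbs l (q.L :: q.T :: q.R :: r) = 0 :: 0 :: lbs l (q.R :: r) := by
      show lb l q.L q.T :: lb l q.T q.R :: lbs l (q.R :: r) = _
      unfold lb
      rw [if_pos v3, if_pos v4]
    have h2 : lbs l (q.L :: q.B :: q.R :: r) = 0 :: 0 :: lbs l (q.R :: r) := by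
      show lb l q.L q.B :: lb l q.B q.R :: lbs l (q.R :: r) = _
      unfold lb
      rw [if_pos v1, if_pos v2]
    rw [h1] at ih
    rw [h2]
    have := Lab.box (a := x) ih
    rw [lbs_len] at this
    exact this

private lemma pot_inR {l : ℕ} {k0 k1 : ℤ} {S : List (Item Unit)} {s : List ℤ} {θ : List (PV ℤ)}
    {e : List (Bool × ℤ × ℤ)} (h : Pot k0 k1 S s θ e) (hk : |k1 - k0| ≤ l)
    (hv : ∀ q ∈ θ, VR l q) (he : ∀ z ∈ e, z.1 = false → |z.2.2 - z.2.1| ≤ l) : InR l s := by
  induction h with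
  | nil => exact ⟨hk, trivial⟩
  | @cup P l' r a m θ e h ih =>
    have ih := ih hv fun z hz => he z (List.mem_cons_of_mem _ hz)
    obtain ⟨h1, _, _, h2⟩ := (mem_inR_app _).1 ih
    exact (mem_inR_app _).2 ⟨h1, h2⟩
  | @cap P l' r a m θ e h ih =>
    have ih := ih hv fun z hz => he z (List.mem_cons_of_mem _ hz)
    obtain ⟨h1, h2⟩ := (mem_inR_app _).1 ih
    have h3 := he (false, a, m) List.mem_cons_self rfl
    have h4 : |a - m| ≤ l := by rw [abs_sub_comm]; exact h3
    exact (mem_inR_app _).2 ⟨h1, h3, h4, h2⟩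
  | @box P l' r x q θ e h ih =>
    have ih := ih (fun q' hq' => hv q' (List.mem_cons_of_mem _ hq')) he
    obtain ⟨v1, v2, v3, v4⟩ := hv q List.mem_cons_self
    obtain ⟨h1, _, _, h2⟩ := (mem_inR_app _).1 ih
    exact (mem_inR_app _).2 ⟨h1, v1, v2, h2⟩

private lemma pot_mem {l : ℕ} {k0 k1 : ℤ} {S : List (Item Unit)} {s : List ℤ} {θ : List (PV ℤ)}
    {e : List (Bool × ℤ × ℤ)} (h : Pot k0 k1 S s θ e) (hk : k1 = k0 + l)
    (hv : ∀ q ∈ θ, VR l q) (he : ∀ z ∈ e, z.1 = false → |z.2.2 - z.2.1| ≤ l) :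
    (θ, e) ∈ pots l S s := by
  classical
  have hk' : |k1 - k0| ≤ l := by
    rw [hk, add_sub_cancel_left, abs_of_nonneg (Int.natCast_nonneg l)]
  induction h with
  | nil =>
    unfold pots
    simp only [hk, if_true]
    exact Finset.mem_singleton_self _
  | @cup P l' r a m θ e h ih =>
    have he' : ∀ z ∈ e, z.1 = false → |z.2.2 - z.2.1| ≤ l :=
      fun z hz => he z (List.mem_cons_of_mem _ hz)
    have ih := ih hv he'
    obtain ⟨_, h1, _, _⟩ := (mem_inR_app _).1 (pot_inR h hk' hv he')
    unfold pots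
    rw [List.drop_left' rfl, List.take_left' rfl]
    refine Finset.mem_biUnion.2 ⟨m, ?_, Finset.mem_image.2 ⟨(θ, e), ih, rfl⟩⟩
    rw [Finset.mem_Icc]
    rw [abs_le] at h1
    constructor <;> linarith [h1.1, h1.2]
  | @cap P l' r a m θ e h ih =>
    have he' : ∀ z ∈ e, z.1 = false → |z.2.2 - z.2.1| ≤ l :=
      fun z hz => he z (List.mem_cons_of_mem _ hz)
    have ih := ih hv he'
    unfold pots
    rw [List.drop_left' rfl, List.take_left' rfl]
    simp only [if_true]
    exact Finset.mem_image.2 ⟨(θ, e), ih, rfl⟩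
  | @box P l' r x q θ e h ih =>
    have hv' : ∀ q' ∈ θ, VR l q' := fun q' hq' => hv q' (List.mem_cons_of_mem _ hq')
    have ih := ih hv' he
    obtain ⟨v1, v2, v3, v4⟩ := hv q List.mem_cons_self
    unfold pots
    rw [List.drop_left' rfl, List.take_left' rfl]
    refine Finset.mem_biUnion.2 ⟨q.T, ?_, Finset.mem_image.2 ⟨(θ, e), ih, rfl⟩⟩
    rw [Finset.mem_filter, Finset.mem_Icc]
    rw [abs_le] at v3
    exact ⟨⟨by linarith [v3.1], by linarith [v3.2]⟩, v4⟩

/-- for connected patterns the condition at the vertices is enough -/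
theorem pots_of {l : ℕ} {S : List (Item Unit)} (hc : Conn S) {θ : List (PV ℤ)}
    {e : List (Bool × ℤ × ℤ)} (h : Pot 0 (l : ℤ) S [0, (l : ℤ)] θ e) (hv : ∀ q ∈ θ, VR l q) :
    (θ, e) ∈ pots l S [0, (l : ℤ)] := by
  have hk : |(l : ℤ) - 0| ≤ l := by
    rw [sub_zero, abs_of_nonneg (Int.natCast_nonneg l)]
  have h1 := pot_lab h hk hv
  refine pot_mem h (by ring) hv fun z hz hz1 => ?_
  have h2 := hc _ _ h1 _ (mem_cl (l := l) hz hz1)
  unfold lb at h2
  by_contra h3
  rw [if_neg h3] at h2
  exact one_ne_zero h2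

end Pool.Agent.Helper77.UN
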